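import Pool.Agent.N547.BG.SUM
import Pool.Agent.N91.BG.MOM
import Pool.Agent.N507.BG.PIG
import Pool.Agent.N80.BG.BIG
import Pool.Agent.N27.BG.Mul
import Pool.Agent.N342.BG.POL
import Pool.Agent.N674.BG.BOG
import Pool.Agent.N106.BG.IND
import Pool.Agent.N353.BG.MAX
import Pool.Agent.N700.BG.GEN
import Pool.Agent.N31.BG.REP
import Pool.Agent.N667.BG.CVX
import Pool.Agent.N933.BG.THM
import Pool.Agent.N271.BG.EXC
import Pool.Agent.N255.BG.Size
import Pool.Agent.N897.BG.CRIT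
import Pool.Agent.N648.BG.NEC

/-!
# An equivalent form of Q1: iterated sumsets in `2A - 2A`

For `A ⊆ ℤ/N` of density `α ≤ 1/2` put `ℓ = log (1/α)`. The theorem says that, up to the values of the absolute
constants, the conclusion of Q1 holds for the set `A` if and only if `2A - 2A` contains an iterated sumset `K X - K X` of a
set `X` of density at least `exp (- C ℓ log (2 + ℓ))`, where `K` is the integral part of a power of `C (2 + ℓ)`
(part (1) and part (2)). So Q1 is equivalent to a statement of almost periodicity type, without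
Bohr sets (part (3)): for some `C`, for every `A` of density `α ≤ 1/2` there is such a set `X`.

The Croot-Sisask lemma and its `L^p` versions give sets `X` with `K X - K X ⊆ 2A - 2A`, but only of density
`exp (- C K² ℓ²)`.

Part (2) is the choice of a small Bohr set `X`. Part (1) rests on the theorem behind the file `ManySummands` of
this page (project MSB of helper173; the parts are due to helpers 547, 91, 507, 80, 27, 342, 674, 106, 353, 700, 31,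
667, 933, 271, 255, 897 and 648): for `K ≥ 333000 M ^ 7 H ^ 2`, `M ≥ log (4N/|X|)` and `H ≥ 2M + 3` the set `K X - K X`
contains a Bohr set of radius `1 / (8H)` with `O(1 + log (4N/|X|) / log H)` frequencies. Here `log (4N/|X|)` may be as large
as `C ℓ log ℓ`; the factor `log H` in the denominator is what makes the number of frequencies `O(ℓ)`.
-/

set_option autoImplicit false

namespace Pool.Agent.Results.MP_169871_nt.EquivalentForm

open Pool.Agent.TH858 Pool.Agent.N173.BG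

/-- The Bohr set `B(Γ, ε) = {x ∈ ℤ/N : ‖γ x / N‖ ≤ ε for all γ ∈ Γ}`; the norm is the distance to the nearest
integer. -/
def bohr {N : ℕ} (Γ : Finset (ZMod N)) (ε : ℝ) : Set (ZMod N) :=
  {x | ∀ γ ∈ Γ, |((γ * x).val : ℝ) / (N : ℝ) - ((round (((γ * x).val : ℝ) / (N : ℝ)) : ℤ) : ℝ)| ≤ ε}

/-- The set `2A - 2A`. -/
def twoAMinusTwoA {N : ℕ} (A : Finset (ZMod N)) : Set (ZMod N) :=
  {x | ∃ a₁ ∈ A, ∃ a₂ ∈ A, ∃ a₃ ∈ A, ∃ a₄ ∈ A, x = a₁ + a₂ - a₃ - a₄}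

/-- The set `K X - K X` of the differences of two sums of `K` elements of `X`. -/
def kXMinusKX {N : ℕ} (K : ℕ) (X : Finset (ZMod N)) : Set (ZMod N) :=
  {x | ∃ a b : Fin K → ZMod N, (∀ i, a i ∈ X) ∧ (∀ i, b i ∈ X) ∧ x = ∑ i, a i - ∑ i, b i}

/-- The logarithm `ℓ = log (1/α)`, where `α = |A| / N` is the density of `A ⊆ ℤ/N`. -/
noncomputable def ell {N : ℕ} (A : Finset (ZMod N)) : ℝ := Real.log ((N : ℝ) / (A.card : ℝ))

/-- The conclusion of Q1 for the set `A`, with the constants `C` and `c`: there is a Bohr set `B(Γ, ε) ⊆ 2A - 2A`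
with `|Γ| ≤ C ℓ` and `ε ≥ c / ℓ`. -/
def Q1For {N : ℕ} (C c : ℝ) (A : Finset (ZMod N)) : Prop :=
  ∃ (Γ : Finset (ZMod N)) (ε : ℝ), 0 < ε ∧ (Γ.card : ℝ) ≤ C * ell A ∧ c / ell A ≤ ε ∧ bohr Γ ε ⊆ twoAMinusTwoA A

/-- The assertion Q1. -/
def Q1 : Prop := ∃ C : ℝ, 0 < C ∧ ∃ c : ℝ, 0 < c ∧ ∀ N : ℕ, 0 < N → ∀ A : Finset (ZMod N), A.Nonempty →
  (A.card : ℝ) / (N : ℝ) ≤ 1 / 2 → Q1For C c A

/-- The set `2A - 2A` contains `K X - K X` for a nonempty set `X` of density at least `exp (- C ℓ log (2 + ℓ))`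
and `K = ⌈(C (2 + ℓ)) ^ 40⌉`. -/
def ContainsManySums {N : ℕ} (C : ℝ) (A : Finset (ZMod N)) : Prop :=
  ∃ X : Finset (ZMod N), X.Nonempty ∧ (N : ℝ) * Real.exp (-(C * ell A * Real.log (2 + ell A))) ≤ X.card ∧
    kXMinusKX ⌈(C * (2 + ell A)) ^ 40⌉₊ X ⊆ twoAMinusTwoA A

/-- The assertion that, for some absolute constant `C`, every `A` of density at most `1 / 2` has this property. -/
def ManySums : Prop := ∃ C : ℝ, 1 ≤ C ∧ ∀ N : ℕ, 0 < N → ∀ A : Finset (ZMod N), A.Nonempty →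
  (A.card : ℝ) / (N : ℝ) ≤ 1 / 2 → ContainsManySums C A

theorem t_pol : S_POL := Pool.Agent.N342.BG.t_POL Pool.Agent.N547.BG.t_SUM
  (Pool.Agent.N507.BG.t_PIG Pool.Agent.N547.BG.t_SUM Pool.Agent.N547.BG.t_CARD)
  (Pool.Agent.N80.BG.t_BIG Pool.Agent.N91.BG.t_MOM Pool.Agent.N547.BG.t_CARD) Pool.Agent.N27.BG.t_MUL

theorem t_thm : S_THM := Pool.Agent.N933.BG.t_THM t_pol Pool.Agent.N674.BG.t_BOG Pool.Agent.N106.BG.t_IND
  Pool.Agent.N353.BG.t_MAX (Pool.Agent.N667.BG.t_CVX (Pool.Agent.N31.BG.t_REP Pool.Agent.N700.BG.t_GEN))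

theorem t_crit : S_CRIT := Pool.Agent.N897.BG.t_CRIT t_thm Pool.Agent.N271.BG.t_EXC

theorem t_nec : S_NEC := Pool.Agent.N648.BG.t_NEC Pool.Agent.N255.BG.t_SIZE

/-- **Q1 in terms of iterated sumsets.** (1) If `2A - 2A` contains the iterated sumset of a set of density at least
`exp (- C ℓ log (2 + ℓ))`, then the conclusion of Q1 holds for `A`, with constants that depend on `C` only. (2) The
converse. (3) Q1 is equivalent to the assertion `ManySums`. -/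
theorem result :
    (∀ C : ℝ, 1 ≤ C → ∃ C' : ℝ, 0 < C' ∧ ∃ c' : ℝ, 0 < c' ∧ ∀ N : ℕ, 0 < N → ∀ A : Finset (ZMod N),
      A.Nonempty → (A.card : ℝ) / (N : ℝ) ≤ 1 / 2 → ContainsManySums C A → Q1For C' c' A) ∧
    (∀ C' c' : ℝ, 0 < C' → 0 < c' → ∃ C : ℝ, 1 ≤ C ∧ ∀ N : ℕ, 0 < N → ∀ A : Finset (ZMod N), A.Nonempty →
      (A.card : ℝ) / (N : ℝ) ≤ 1 / 2 → Q1For C' c' A → ContainsManySums C A) ∧
    (Q1 ↔ ManySums) := by
  have h3 : ∀ C : ℝ, 1 ≤ C → ∃ C' : ℝ, 0 < C' ∧ ∃ c' : ℝ, 0 < c' ∧ ∀ N : ℕ, 0 < N → ∀ A : Finset (ZMod N),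
      A.Nonempty → (A.card : ℝ) / (N : ℝ) ≤ 1 / 2 → ContainsManySums C A → Q1For C' c' A := by
    intro C hC
    obtain ⟨C', hC', c', hc', h⟩ := t_crit C hC
    refine ⟨C', hC', c', hc', fun N hN A hA hα hX => ?_⟩
    obtain ⟨X, h1, h2, h3⟩ := hX
    have : NeZero N := ⟨hN.ne'⟩
    obtain ⟨Γ, ε, h5, h6, h7, h8⟩ := h N A X _ hA hα h1 h2 (Nat.le_ceil _) h3
    exact ⟨Γ, ε, h5, h6, h7, fun x hx => h8 x fun γ hγ => hx γ hγ⟩
  have h4 : ∀ C' c' : ℝ, 0 < C' → 0 < c' → ∃ C : ℝ, 1 ≤ C ∧ ∀ N : ℕ, 0 < N → ∀ A : Finset (ZMod N), A.Nonempty →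
      (A.card : ℝ) / (N : ℝ) ≤ 1 / 2 → Q1For C' c' A → ContainsManySums C A := by
    intro C' c' hC' hc'
    obtain ⟨C, hC, h⟩ := t_nec C' c' hC' hc'
    refine ⟨C, hC, fun N hN A hA hα hQ => ?_⟩
    have : NeZero N := ⟨hN.ne'⟩
    obtain ⟨Γ, ε, h5, h6, h7, h8⟩ := hQ
    exact h N A hA hα ⟨Γ, ε, h5, h6, h7, fun x hx => h8 fun γ hγ => hx γ hγ⟩
  refine ⟨h3, h4, ?_, ?_⟩
  · rintro ⟨C', hC', c', hc', h⟩
    obtain ⟨C, hC, h'⟩ := h4 C' c' hC' hc'
    exact ⟨C, hC, fun N hN A hA hα => h' N hN A hA hα (h N hN A hA hα)⟩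
  · rintro ⟨C, hC, h⟩
    obtain ⟨C', hC', c', hc', h'⟩ := h3 C hC
    exact ⟨C', hC', c', hc', fun N hN A hA hα => h' N hN A hA hα (h N hN A hA hα)⟩

end Pool.Agent.Results.MP_169871_nt.EquivalentForm
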