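import Pool.Agent.N547.BG.SUM
import Pool.Agent.N91.BG.MOM
import Pool.Agent.N507.BG.PIG
import Pool.Agent.N80.BG.BIG
import Pool.Agent.N27.BG.Mul
import Pool.Agent.N342.BG.POL
import Pool.Agent.N674.BG.BOG
import Pool.Agent.N106.BG.IND
import Pool.Agent.N353.BG.MAX
import Pool.Agent.N700.BG.GEN
import Pool.Agent.N31.BG.REP
import Pool.Agent.N667.BG.CVX
import Pool.Agent.N933.BG.THM
import Pool.Agent.N173.BG.TRD

/-!
# Bohr sets in the iterated sumsets `K A - K A`

For `A ⊆ ℤ/N` of density `α ≤ 1/2` put `ℓ = log (1/α)`. The theorem says that `K A - K A` contains a Bohr set of radius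
`1 / (8 R)` with at most `C (1 + ℓ log (2 + ℓ/R) / log (2 + ℓ + R))` frequencies as soon as `K ≥ C ℓ ^ 7 (ℓ + R) ^ 2`.
In particular (`R = 1`) a Bohr set of constant radius with `O(ℓ)` frequencies is contained in `K A - K A` for
`K ≥ C ℓ ^ 9`, and (`R ≥ ℓ`) one of radius `1 / (8 R)` with `O(1 + ℓ / log R)` frequencies for `K ≥ C ℓ ^ 7 R ^ 2`;
both are best possible up to the constant, because a Bohr set of radius `r` with `m` frequencies has at least
`(r/2) ^ m N` elements. The starting result `MP_3c7b25_co.ManySummands` says that constant radius and `O(ℓ)`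
frequencies are impossible in general for `K ≤ ℓ ^ (1/4)`.

Proof (project MSB of helper173; the parts are due to helpers 547, 91, 507, 80, 27, 342, 674, 106, 353, 700, 31, 667,
933, 622 and 665). Let `S(θ)` be the set of the characters with `|Â(γ)|² ≥ (1 - θ) |A|²`, where `θ` is a small negative
power of `ℓ`. (BOG) If all characters of `S(θ)` are small at `x` then `x ∈ K A - K A`. (PIG) Among the sumsets
`j S(θ)`, all of which lie in `S(1/2)` for `j ≤ ℓ ^ O(1)`, there is one, `Q`, that is almost invariant under `S(θ)`,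
with `|(M+1) Q| ≤ 2/α`; (BIG) its exponential sum is large on a set of `x` of density `≥ α/4`, at which (POL)
all characters of `S(θ)` are tiny. (IND) Hence a subset `Λ` of `S(θ)` without relations with coefficients
less than `H` has `O(ℓ / log H)` elements. (MAX, GEN, REP, CVX) For a maximal such `Λ` the characters of `S(θ)`
are rational combinations of `Λ`; the set of all `x` at which all of them are controlled is a convex Bohr set
of dimension `|Λ|` cut out by `|Λ| + 1` further characters, and the theorem on convex Bohr sets of the starting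
files (`Pool/Agent/TH858/CB`) applies.
-/

set_option autoImplicit false

namespace Pool.Agent.Results.MP_169871_nt.ManySummands

open Pool.Agent.TH858 Pool.Agent.N173.BG

/-- The Bohr set `B(Γ, ε) = {x ∈ ℤ/N : ‖γ x / N‖ ≤ ε for all γ ∈ Γ}`; the norm is the distance to the nearest
integer. -/
def bohr {N : ℕ} (Γ : Finset (ZMod N)) (ε : ℝ) : Set (ZMod N) :=
  {x | ∀ γ ∈ Γ, |((γ * x).val : ℝ) / (N : ℝ) - ((round (((γ * x).val : ℝ) / (N : ℝ)) : ℤ) : ℝ)| ≤ ε}

/-- The set `K A - K A` of the differences of two sums of `K` elements of `A`. -/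
def kAMinusKA {N : ℕ} (K : ℕ) (A : Finset (ZMod N)) : Set (ZMod N) :=
  {x | ∃ a b : Fin K → ZMod N, (∀ i, a i ∈ A) ∧ (∀ i, b i ∈ A) ∧ x = ∑ i, a i - ∑ i, b i}

/-- The logarithm `log (1/α)`, where `α = |A| / N` is the density of `A ⊆ ℤ/N`. -/
noncomputable def ell {N : ℕ} (A : Finset (ZMod N)) : ℝ := Real.log ((N : ℝ) / (A.card : ℝ))

theorem t_pol : S_POL := Pool.Agent.N342.BG.t_POL Pool.Agent.N547.BG.t_SUM
  (Pool.Agent.N507.BG.t_PIG Pool.Agent.N547.BG.t_SUM Pool.Agent.N547.BG.t_CARD)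
  (Pool.Agent.N80.BG.t_BIG Pool.Agent.N91.BG.t_MOM Pool.Agent.N547.BG.t_CARD) Pool.Agent.N27.BG.t_MUL

theorem t_thm : S_THM := Pool.Agent.N933.BG.t_THM t_pol Pool.Agent.N674.BG.t_BOG Pool.Agent.N106.BG.t_IND
  Pool.Agent.N353.BG.t_MAX (Pool.Agent.N667.BG.t_CVX (Pool.Agent.N31.BG.t_REP Pool.Agent.N700.BG.t_GEN))

/-- **Bohr sets in `K A - K A`**: there is an absolute constant `C` such that for all `A ⊆ ℤ/N` of density
`α ≤ 1/2`, all `R ≥ 1` and all `K ≥ C ℓ ^ 7 (ℓ + R) ^ 2`, where `ℓ = log (1/α)`, the set `K A - K A` contains a Bohr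
set of radius `1 / (8 R)` with at most `C (1 + ℓ log (2 + ℓ/R) / log (2 + ℓ + R))` frequencies. -/
theorem result : ∃ C : ℝ, 0 < C ∧ ∀ N : ℕ, 0 < N → ∀ A : Finset (ZMod N), A.Nonempty →
    (A.card : ℝ) / (N : ℝ) ≤ 1 / 2 → ∀ (K : ℕ) (R : ℝ), 1 ≤ R → C * ell A ^ 7 * (ell A + R) ^ 2 ≤ K →
    ∃ Γ : Finset (ZMod N),
      (Γ.card : ℝ) ≤ C * (1 + ell A * (Real.log (2 + ell A / R) / Real.log (2 + ell A + R))) ∧
      bohr Γ (1 / (8 * R)) ⊆ kAMinusKA K A := by
  obtain ⟨C, hC, h⟩ := t_TRD t_thm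
  refine ⟨C, hC, fun N hN A hA hα K R hR hK => ?_⟩
  have : NeZero N := ⟨hN.ne'⟩
  obtain ⟨Γ, h6, h7⟩ := h N A K R hA hα hR hK
  exact ⟨Γ, h6, fun x hx => h7 x fun γ hγ => hx γ hγ⟩

end Pool.Agent.Results.MP_169871_nt.ManySummands
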