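import Pool.Agent.N142.CD.FIN3
import Pool.Agent.N142.CD.MOM
import Pool.Agent.N142.CD.CS
import Pool.Agent.N142.CD.AP
import Pool.Agent.N142.CD.FOU
import Pool.Agent.N142.CD.FR
import Pool.Agent.N142.CD.VOL
import Pool.Agent.N142.CD.INV
import Pool.Agent.N142.CD.LCH

/-!
# Q1 for sets of doubling up to `exp ((log (1/α)) ^ (1/5))`

Let `A ⊆ ℤ/N` have density `α ≤ 1/2` and `|A + A| ≤ K |A|`, `x = log (1/α)`. Then `2A - 2A` contains a Bohr set with at
most `C (x + log⁵ (2K)) / log (2 + x)` frequencies and radius at least `1 / (C x)`, with an absolute constant `C`. So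
the conclusion of Q1 holds for all the sets with `log⁵ (2K) ≤ C x log (2 + x)`, and for `log⁵ (2K) ≤ C x` the number of
frequencies is only `O (x / log x)`. Every Bohr set of radius `ε` in `2A - 2A` has at least
`(x - 4 log K) / log (2 / ε)` frequencies, so `x / log x` is the right order of magnitude for these sets.

The proof:
* the Croot-Sisask argument: a large set `T ⊆ A` of almost-periods of the convolution of `A`, `A` and `A + A`
  (`N142.CD.CS`, `AP`), and the Fourier transform of the `l`-fold convolution of `T - T`, `l = O(log (2K))` (`FOU`);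
* a near-polynomial Freiman-Ruzsa theorem (starting library `H112R2`) in the quotient by the annihilator of its
  characters: `A` is covered by `exp (O(log² (2K)))` translates of a proper coset progression `X` of rank
  `O(log (2K))` and of size at most `exp (O(log² (2K))) |A|` (`FR`); so a translate of `X` contains a large part `T₁` of
  `T`;
* a local form of Chang's theorem: the spectrum of `T₁` at the level `1/2` is spanned by `O(log⁴ (2K))` frequencies
  and the characters that have large mean over a short multiple `S` of `X` (`LCH`), which are almost constant on a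
  still shorter multiple (`INV`);
* the latter contains a Bohr set with `O((x + log² (2K)) / log R)` frequencies and radius `1 / (8R)`
  (starting library `TH858.GP.Coset`); the radius of the Bohr set of the `O(log⁴ (2K))` frequencies `λ` is raised from
  `1 / (C K log⁴ (2K))` to `1 / (8R)` by taking all the frequencies `R^i λ` (`RAD`).
-/

set_option autoImplicit false

namespace Pool.Agent.Results.MP_169871_nt.ModerateDoubling

open Pool.Agent.N142
open scoped Pointwise

/-- The Bohr set `B(Γ, ε) = {x ∈ ℤ/N : ‖γ x / N‖ ≤ ε for all γ ∈ Γ}`; the norm is the distance to the nearest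
integer. -/
def bohr {N : ℕ} (Γ : Finset (ZMod N)) (ε : ℝ) : Set (ZMod N) :=
  {x | ∀ γ ∈ Γ, |((γ * x).val : ℝ) / (N : ℝ) - ((round (((γ * x).val : ℝ) / (N : ℝ)) : ℤ) : ℝ)| ≤ ε}

/-- The set `2A - 2A`. -/
def twoAMinusTwoA {N : ℕ} (A : Finset (ZMod N)) : Set (ZMod N) :=
  {x | ∃ a₁ ∈ A, ∃ a₂ ∈ A, ∃ a₃ ∈ A, ∃ a₄ ∈ A, x = a₁ + a₂ - a₃ - a₄}

/-- `log (1/α)` for the density `α = |A| / N` -/
noncomputable def logDens {N : ℕ} (A : Finset (ZMod N)) : ℝ := Real.log ((N : ℝ) / (A.card : ℝ))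

theorem t_AP : CD.S_AP := CD.t_AP (CD.t_CS CD.t_MOM)

/-- **Q1 for sets of moderate doubling.** (1) a Bohr set in `2A - 2A` for sets of doubling `K`; (2) a lower bound
for the number of the frequencies of such Bohr sets; (3) the conclusion of Q1 for all sets `A` with a piece `B` (for
example `B = A`) of density at least `α ^ D` and of doubling `K` with `log⁵ (2K) ≤ D log (1/α) log (2 + log (1/α))`. -/
theorem result :
    (∃ C : ℝ, 1 ≤ C ∧ ∀ (N : ℕ), 0 < N → ∀ (A : Finset (ZMod N)) (K : ℝ), A.Nonempty →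
      (A.card : ℝ) / (N : ℝ) ≤ 1 / 2 → 1 ≤ K → ((A + A).card : ℝ) ≤ K * A.card →
      ∃ (Γ : Finset (ZMod N)) (ε : ℝ), 0 < ε ∧
        (Γ.card : ℝ) ≤ C * ((logDens A + Real.log (2 * K) ^ 5) / Real.log (2 + logDens A)) ∧
        1 / C / logDens A ≤ ε ∧ bohr Γ ε ⊆ twoAMinusTwoA A) ∧
    (∀ (N : ℕ), 0 < N → ∀ (A : Finset (ZMod N)) (K : ℝ), A.Nonempty → 1 ≤ K →
      ((A + A).card : ℝ) ≤ K * A.card → ∀ (Γ : Finset (ZMod N)) (ε : ℝ), 0 < ε → ε ≤ 1 →
      bohr Γ ε ⊆ twoAMinusTwoA A → logDens A - 4 * Real.log K ≤ Γ.card * Real.log (2 / ε)) ∧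
    (∀ D : ℝ, 1 ≤ D → ∃ C : ℝ, 1 ≤ C ∧ ∀ (N : ℕ), 0 < N → ∀ (A B : Finset (ZMod N)) (K : ℝ), A.Nonempty →
      (A.card : ℝ) / (N : ℝ) ≤ 1 / 2 → B ⊆ A → B.Nonempty → logDens B ≤ D * logDens A → 1 ≤ K →
      ((B + B).card : ℝ) ≤ K * B.card →
      Real.log (2 * K) ^ 5 ≤ D * (logDens A * Real.log (2 + logDens A)) →
      ∃ (Γ : Finset (ZMod N)) (ε : ℝ), 0 < ε ∧ (Γ.card : ℝ) ≤ C * logDens A ∧
        1 / C / logDens A ≤ ε ∧ bohr Γ ε ⊆ twoAMinusTwoA A) := by
  have h1 := CD.fin4 CD.t_FR t_AP CD.t_FOU CD.t_VOL CD.t_INV CD.t_LCH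
  refine ⟨?_, ?_, fun D hD => ?_⟩
  · obtain ⟨C, hC, h⟩ := h1
    refine ⟨C, hC, fun N hN A K hA hα hK hAA => ?_⟩
    have : NeZero N := ⟨hN.ne'⟩
    obtain ⟨Γ, ε, h2, h3, h4, h5⟩ := h N A K hA hα hK hAA
    exact ⟨Γ, ε, h2, h3, h4, fun y hy => h5 y fun g hg => hy g hg⟩
  · intro N hN A K hA hK hAA Γ ε hε hε1 h
    have : NeZero N := ⟨hN.ne'⟩
    exact CD.lower A hA K hK hAA Γ ε hε hε1 fun y hy => h fun g hg => hy g hg
  · obtain ⟨C, hC, h⟩ := CD.fin5 h1 D hD
    refine ⟨C, hC, fun N hN A B K hA hα hBA hB hd hK hBB hKx => ?_⟩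
    have : NeZero N := ⟨hN.ne'⟩
    obtain ⟨Γ, ε, h2, h3, h4, h5⟩ := h N A B K hA hα hBA hB hd hK hBB hKx
    exact ⟨Γ, ε, h2, h3, h4, fun y hy => h5 y fun g hg => hy g hg⟩

end Pool.Agent.Results.MP_169871_nt.ModerateDoubling
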